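import Mathlib

/-!
# Statements of the packages of project LM (integer relations between zeta zeros at given mesoscopic
distances)
-/

set_option autoImplicit false

namespace Pool.Agent.P8H60.LM

open Finset MeasureTheory Filter Topology

/-- the prime polynomial with complex coefficients -/
noncomputable def GC (z : ℕ → ℂ) (X : ℕ) (t : ℝ) : ℂ :=
  ∑ p ∈ (Icc 1 X).filter Nat.Prime, z p * (p : ℂ) ^ (-(t : ℂ) * Complex.I)

/-- the sum of the squares of the coefficients -/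
noncomputable def VC (z : ℕ → ℂ) (X : ℕ) : ℝ := ∑ p ∈ (Icc 1 X).filter Nat.Prime, ‖z p‖ ^ 2

/-- package TW: the characteristic function of prime polynomials with complex coefficients.
(Model: `cf_poly` in `Pool/Agent/R321/QA1.lean`, real coefficients.) -/
def S_TW : Prop := ∀ (T A B : ℕ → ℝ) (X : ℕ → ℕ) (z : ℕ → ℕ → ℂ) (N : ℕ → ℝ) (M : ℝ),
    (∀ j p, ‖z j p‖ ^ 2 ≤ M) → Tendsto T atTop atTop → (∀ j, 0 < T j) → (∀ j, A j ≤ B j) →
    Tendsto (fun j => (B j - A j) / T j) atTop (𝓝 1) → (∀ j, 1 ≤ X j) →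
    (∀ m : ℕ, ∀ᶠ j in atTop, ((X j ^ m : ℕ) : ℝ) ≤ Real.sqrt (T j)) →
    Tendsto (fun j => VC (z j) (X j)) atTop atTop →
    Tendsto (fun j => Real.sqrt (VC (z j) (X j)) / N j) atTop (𝓝 1) → ∀ s : ℝ,
    Tendsto (fun j => ((1 / T j : ℝ) : ℂ) * ∫ t in (A j)..(B j),
      Complex.exp (Complex.I * ((s * (Real.sqrt 2 * (GC (z j) (X j) t / (N j : ℂ)).re) : ℝ) : ℂ)))
      atTop (𝓝 (Complex.exp ((-(s ^ 2) / 2 : ℝ) : ℂ)))

/-- package CO: convergence to the standard normal law gives a concentration bound, uniformly in the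
centre of the interval. (Use `levy_closed` in `Pool/Agent/P8H60/NR/Levy.lean` with `K = 1`, for
finitely many closed intervals of length `4 * ε` and the outside of a large interval.) -/
def S_CO : Prop := ∀ (T : ℕ → ℝ) (Z : ℕ → ℝ → ℝ), (∀ j, 0 < T j) → (∀ j, Measurable (Z j)) →
    (∀ s : ℝ, Tendsto (fun j => ((1 / T j : ℝ) : ℂ) * ∫ t in (T j)..(2 * T j),
      Complex.exp (Complex.I * ((s * Z j t : ℝ) : ℂ))) atTop
      (𝓝 (Complex.exp ((-(s ^ 2) / 2 : ℝ) : ℂ)))) →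
    ∀ ε : ℝ, 0 < ε → ∀ᶠ j in atTop, ∀ b : ℝ,
      volume {t ∈ Set.Icc (T j) (2 * T j) | |Z j t - b| ≤ ε} ≤ ENNReal.ofReal (8 * ε * T j)

end Pool.Agent.P8H60.LM
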