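import Pool.Agent.P8H60.NR.Joint2
import Pool.Agent.R846.VS.E
import Pool.Agent.P8H60.LM.Stm

/-! # Linear forms in the numbers of zeros at given positions -/

set_option autoImplicit false

namespace Pool.Agent.P8H60.LM

open Filter Topology MeasureTheory Complex
open Pool.Agent.Y743.CL (G G_cont VS pr pr_apply Pr mem_Pr rc er XK rc_bd)
open Pool.Agent.R321.QA
open Pool.Agent.Y41.SW (DP)
open Pool.Agent.R846.VS (Dd)
open Pool.Agent.P8H60.NR (vs_any rc_abs rc_zero)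
open SG (NZ)

variable {lam C : ℝ} {a T : ℕ → ℝ}

lemma rc_cos (l h h' : ℝ) (n : ℕ) : rc l h n * rc l h' n * Real.cos (h / 2 * Real.log n - h' / 2 * Real.log n) =
    1 / 2 * (rc l h n ^ 2 + rc l h' n ^ 2 - rc l (h - h') n ^ 2) := by
  unfold rc
  set L := Real.log n
  have e1 : (h - h') / 2 * L = h / 2 * L - h' / 2 * L := by ring
  rw [e1]
  set u := h / 2 * L
  set v := h' / 2 * L
  have e3 : Real.sin u * Real.sin v * Real.cos (u - v) =
      1 / 2 * (Real.sin u ^ 2 + Real.sin v ^ 2 - Real.sin (u - v) ^ 2) := by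
    rw [Real.sin_sub, Real.cos_sub]
    have h4 : Real.cos u ^ 2 = 1 - Real.sin u ^ 2 := by
      have := Real.sin_sq_add_cos_sq u; linarith
    have h5 : Real.cos v ^ 2 = 1 - Real.sin v ^ 2 := by
      have := Real.sin_sq_add_cos_sq v; linarith
    have h6 : (Real.sin u * Real.cos v - Real.cos u * Real.sin v) ^ 2 =
        Real.sin u ^ 2 * Real.cos v ^ 2 + Real.cos u ^ 2 * Real.sin v ^ 2 -
        2 * (Real.sin u * Real.cos v * Real.cos u * Real.sin v) := by ring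
    rw [h6, h4, h5]
    ring
  set A := 2 * (1 / Real.sqrt (2 * Real.pi)) * (ArithmeticFunction.vonMangoldt n * (Real.sqrt n)⁻¹ *
    Pool.Agent.TH850.UV.ggo l n)
  have e4 : A * (l / (2 * Real.pi) * (2 * Real.sin u / L)) *
      (A * (l / (2 * Real.pi) * (2 * Real.sin v / L))) * Real.cos (u - v) =
      (A * (l / (2 * Real.pi) * (2 / L))) ^ 2 * (Real.sin u * Real.sin v * Real.cos (u - v)) := by ring
  rw [e4, e3]
  ring

lemma norm_comb {D : ℕ} (c θ : Fin (D + 1) → ℝ) :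
    ‖∑ i, (c i : ℂ) * cexp (-(θ i : ℂ) * I)‖ ^ 2 = ∑ i, ∑ k, c i * c k * Real.cos (θ i - θ k) := by
  have h1 : ∀ i, (c i : ℂ) * cexp (-(θ i : ℂ) * I) =
      ((c i * Real.cos (θ i) : ℝ) : ℂ) + ((-(c i * Real.sin (θ i)) : ℝ) : ℂ) * I := by
    intro i
    rw [← Complex.ofReal_neg, Complex.exp_mul_I, ← Complex.ofReal_cos, ← Complex.ofReal_sin, Real.cos_neg,
      Real.sin_neg]
    push_cast
    ring
  rw [← Complex.normSq_eq_norm_sq]
  simp only [h1]
  rw [Finset.sum_add_distrib, ← Finset.sum_mul, ← Complex.ofReal_sum, ← Complex.ofReal_sum,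
    Complex.normSq_add_mul_I, Finset.sum_neg_distrib, neg_sq, pow_two, pow_two, Finset.sum_mul_sum,
    Finset.sum_mul_sum, ← Finset.sum_add_distrib]
  refine Finset.sum_congr rfl fun i _ => ?_
  rw [← Finset.sum_add_distrib]
  refine Finset.sum_congr rfl fun k _ => ?_
  rw [Real.cos_sub]
  ring

/-- the complex coefficients -/
noncomputable def zc {D : ℕ} (l : ℝ) (h α : Fin (D + 1) → ℝ) (p : ℕ) : ℂ :=
  ∑ i, ((α i * rc l (h i) p : ℝ) : ℂ) * (p : ℂ) ^ (-((h i / 2 : ℝ) : ℂ) * I)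

lemma cpow_exp {p : ℕ} (hp : p ≠ 0) (y : ℝ) : (p : ℂ) ^ (-(y : ℂ) * I) =
    cexp (-((y * Real.log p : ℝ) : ℂ) * I) := by
  rw [Complex.cpow_def_of_ne_zero (by exact_mod_cast hp), ← Complex.natCast_log]
  congr 1
  push_cast
  ring

lemma zc_norm {D : ℕ} (l : ℝ) (h α : Fin (D + 1) → ℝ) {p : ℕ} (hp : p ≠ 0) :
    ‖zc l h α p‖ ^ 2 = ∑ i, ∑ k, α i * α k *
      (1 / 2 * (rc l (h i) p ^ 2 + rc l (h k) p ^ 2 - rc l |h i - h k| p ^ 2)) := by
  unfold zc
  simp only [cpow_exp hp]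
  rw [norm_comb]
  refine Finset.sum_congr rfl fun i _ => Finset.sum_congr rfl fun k _ => ?_
  rw [← rc_abs, ← rc_cos]
  ring

/-- the sum of the squares of the coefficients -/
lemma VC_zc {D : ℕ} (l : ℝ) (h α : Fin (D + 1) → ℝ) (hα : ∑ i, α i = 0) (X : ℕ) :
    VC (zc l h α) X = -(1 / 2) * ∑ i, ∑ k, α i * α k * VS (rc l |h i - h k|) X := by
  have h1 : VC (zc l h α) X = ∑ i, ∑ k, α i * α k *
      (1 / 2 * (VS (rc l (h i)) X + VS (rc l (h k)) X - VS (rc l |h i - h k|) X)) := by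
    unfold VC VS
    have e1 : ∀ p ∈ (Finset.Icc 1 X).filter Nat.Prime, ‖zc l h α p‖ ^ 2 = ∑ i, ∑ k, α i * α k *
        (1 / 2 * (rc l (h i) p ^ 2 + rc l (h k) p ^ 2 - rc l |h i - h k| p ^ 2)) := fun p hp =>
      zc_norm l h α (by
        have := (Finset.mem_Icc.1 (Finset.mem_filter.1 hp).1).1
        omega)
    rw [Finset.sum_congr rfl e1, Finset.sum_comm]
    refine Finset.sum_congr rfl fun i _ => ?_
    rw [Finset.sum_comm]
    refine Finset.sum_congr rfl fun k _ => ?_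
    rw [← Finset.mul_sum, ← Finset.mul_sum, Finset.sum_sub_distrib, Finset.sum_add_distrib]
  rw [h1]
  have h2 : ∀ i k, α i * α k *
      (1 / 2 * (VS (rc l (h i)) X + VS (rc l (h k)) X - VS (rc l |h i - h k|) X)) =
      1 / 2 * (α i * VS (rc l (h i)) X * α k) + 1 / 2 * (α i * (α k * VS (rc l (h k)) X)) +
      -(1 / 2) * (α i * α k * VS (rc l |h i - h k|) X) := fun i k => by ring
  simp only [h2, Finset.sum_add_distrib, ← Finset.mul_sum, hα, ← Finset.sum_mul]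
  ring

/-- the polynomial as a combination -/
lemma GC_comb {D : ℕ} (l : ℝ) (h α : Fin (D + 1) → ℝ) (X : ℕ) (t : ℝ) :
    GC (zc l h α) X t = ∑ i, (α i : ℂ) * G (rc l (h i)) X (t + h i / 2) := by
  unfold GC zc G DP
  have h1 : ∀ i : Fin (D + 1), ∑ n ∈ Finset.Icc 1 X, ((pr (rc l (h i)) X n : ℝ) : ℂ) *
      (n : ℂ) ^ (-((t + h i / 2 : ℝ) : ℂ) * I) = ∑ n ∈ (Finset.Icc 1 X).filter Nat.Prime,
      ((rc l (h i) n : ℝ) : ℂ) * (n : ℂ) ^ (-((t + h i / 2 : ℝ) : ℂ) * I) := by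
    intro i
    rw [Finset.sum_filter]
    refine Finset.sum_congr rfl fun n hn => ?_
    rw [pr_apply]
    by_cases hp : n.Prime
    · rw [if_pos ⟨hp, (Finset.mem_Icc.1 hn).2⟩, if_pos hp]
    · rw [if_neg (fun h => hp h.1), if_neg hp]
      simp
  simp only [h1, Finset.mul_sum, Finset.sum_mul]
  rw [Finset.sum_comm]
  refine Finset.sum_congr rfl fun i _ => Finset.sum_congr rfl fun n hn => ?_
  have hn0 : n ≠ 0 := by
    have := (Finset.mem_Icc.1 (Finset.mem_filter.1 hn).1).1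
    omega
  rw [cpow_exp hn0, cpow_exp hn0, cpow_exp hn0]
  have e1 : cexp (-(((t + h i / 2) * Real.log n : ℝ) : ℂ) * I) =
      cexp (-((h i / 2 * Real.log n : ℝ) : ℂ) * I) * cexp (-((t * Real.log n : ℝ) : ℂ) * I) := by
    rw [← Complex.exp_add]
    congr 1
    push_cast
    ring
  rw [e1]
  push_cast
  ring

/-- the normalised linear form -/
noncomputable def ZL {D : ℕ} (a T : ℝ) (x α : Fin (D + 1) → ℝ) (t : ℝ) : ℝ :=
  Real.sqrt 2 * (Real.pi / Real.sqrt (Real.log a) * ∑ i, α i * Dd T t (x i))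

lemma Dd_er (lam κ T t x : ℝ) : Dd T t x = er lam κ T x t -
    (G (rc (Real.log T / lam) (hs x T)) (XK κ T) (t + hs x T / 2)).re := by
  unfold Dd er hs
  ring

lemma ZL_meas {D : ℕ} (a T : ℝ) (x α : Fin (D + 1) → ℝ) : Measurable (ZL a T x α) := by
  unfold ZL Dd
  have h1 : Measurable fun t : ℝ => (NZ t : ℝ) := measurable_from_nat.comp (SG.NZ_mono.measurable)
  refine Measurable.const_mul (Measurable.const_mul (Finset.measurable_fun_sum _ fun i _ => ?_) _) _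
  exact (((h1.comp (measurable_id.add_const _)).sub h1).sub_const _).const_mul _

end Pool.Agent.P8H60.LM
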