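import Pool.Agent.P8H60.LM.Lin

/-! # The limit law of linear forms -/

set_option autoImplicit false

namespace Pool.Agent.P8H60.LM

open Filter Topology MeasureTheory Complex
open Pool.Agent.Y743.CL (G G_cont VS pr pr_apply Pr mem_Pr rc er XK rc_bd)
open Pool.Agent.R321.QA
open Pool.Agent.R846.VS (Dd)
open Pool.Agent.P8H60.NR (vs_any rc_abs rc_zero hs_abs)
open SG (NZ)

variable {lam C : ℝ} {a T : ℕ → ℝ}

/-- the standing assumptions on positions and coefficients -/
structure Pos (κ : ℝ) {D : ℕ} (a : ℝ) (x α : Fin (D + 1) → ℝ) : Prop where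
  lo : ∀ i, κ * a ≤ x i
  hi : ∀ i, x i ≤ a
  sep : ∀ i k, i ≠ k → κ * a ≤ |x i - x k|
  sum : ∑ i, α i = 0
  sq : ∑ i, α i ^ 2 = 1

lemma Pos.le1 {κ : ℝ} {D : ℕ} {a : ℝ} {x α : Fin (D + 1) → ℝ} (h : Pos κ a x α) (i : Fin (D + 1)) :
    |α i| ≤ 1 := by
  rw [← sq_le_one_iff_abs_le_one, ← h.sq]
  exact Finset.single_le_sum (f := fun i => α i ^ 2) (fun i _ => sq_nonneg _) (Finset.mem_univ i)

lemma vc_lim (h : SD lam C a T) {κ : ℝ} (hκ : 0 < κ) {D : ℕ} (x α : ℕ → Fin (D + 1) → ℝ)
    (hp : ∀ j, Pos κ (a j) (x j) (α j)) :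
    Tendsto (fun j => VC (zc (Real.log (T j) / lam) (fun i => hs (x j i) (T j)) (α j))
      (XK (kp (a j)) (T j)) / Real.log (a j)) atTop (𝓝 (1 / Real.pi ^ 2)) := by
  have hpi := Real.pi_pos
  have ha0 : ∀ j, 0 < a j := fun j => by linarith [h.a16 j]
  set v : Fin (D + 1) → Fin (D + 1) → ℕ → ℝ := fun i k j =>
    VS (rc (Real.log (T j) / lam) |hs (x j i) (T j) - hs (x j k) (T j)|) (XK (kp (a j)) (T j)) /
      Real.log (a j) with hv
  have h1 : ∀ i k, Tendsto (v i k) atTop (𝓝 (2 / Real.pi ^ 2 * if i = k then 0 else 1)) := by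
    intro i k
    by_cases hik : i = k
    · rw [if_pos hik, mul_zero]
      subst hik
      refine tendsto_const_nhds.congr fun j => ?_
      simp only [hv]
      rw [sub_self, abs_zero]
      have e1 : VS (rc (Real.log (T j) / lam) 0) (XK (kp (a j)) (T j)) = 0 := by
        unfold VS
        refine Finset.sum_eq_zero fun p _ => ?_
        rw [rc_zero]
        norm_num
      rw [e1, zero_div]
    · rw [if_neg hik, mul_one]
      have g := vs_any h hκ (fun j => |x j i - x j k|) (fun j => (hp j).sep i k hik) (fun j => by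
        have a1 := (hp j).lo i
        have a2 := (hp j).lo k
        have a3 := (hp j).hi i
        have a4 := (hp j).hi k
        have a5 : 0 < κ * a j := mul_pos hκ (ha0 j)
        have a6 := ha0 j
        rw [abs_le]
        constructor <;> linarith)
      refine g.congr fun j => ?_
      simp only [hv]
      have e1 : |hs (x j i) (T j) - hs (x j k) (T j)| = hs |x j i - x j k| (T j) := by
        rw [← hs_abs (h.L0 j)]
        congr 1
        unfold hs
        ring
      rw [e1]
  rw [tendsto_iff_norm_sub_tendsto_zero]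
  have h2 : Tendsto (fun j => 1 / 2 * ∑ i, ∑ k, |v i k j - 2 / Real.pi ^ 2 * if i = k then 0 else 1|) atTop
      (𝓝 (1 / 2 * ∑ i : Fin (D + 1), ∑ k : Fin (D + 1), 0)) := by
    refine (tendsto_finsetSum _ fun i _ => tendsto_finsetSum _ fun k _ => ?_).const_mul _
    have := ((h1 i k).sub_const (2 / Real.pi ^ 2 * if i = k then 0 else 1)).abs
    rwa [sub_self, abs_zero] at this
  have e0 : (1 : ℝ) / 2 * ∑ i : Fin (D + 1), ∑ k : Fin (D + 1), (0 : ℝ) = 0 := by simp
  rw [e0] at h2
  refine squeeze_zero (fun j => norm_nonneg _) (fun j => ?_) h2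
  have hj := hp j
  rw [VC_zc _ _ _ hj.sum]
  have e1 : -(1 / 2) * (∑ i, ∑ k, α j i * α j k * VS (rc (Real.log (T j) / lam)
      |hs (x j i) (T j) - hs (x j k) (T j)|) (XK (kp (a j)) (T j))) / Real.log (a j) =
      -(1 / 2) * ∑ i, ∑ k, α j i * α j k * v i k j := by
    rw [mul_div_assoc, Finset.sum_div]
    congr 1
    refine Finset.sum_congr rfl fun i _ => ?_
    rw [Finset.sum_div]
    refine Finset.sum_congr rfl fun k _ => ?_
    simp only [hv]
    ring
  have e2 : ∑ i, ∑ k, α j i * α j k * (2 / Real.pi ^ 2 * if i = k then (0 : ℝ) else 1) =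
      -(2 / Real.pi ^ 2) := by
    have e3 : ∀ i k, α j i * α j k * (2 / Real.pi ^ 2 * if i = k then (0 : ℝ) else 1) =
        2 / Real.pi ^ 2 * (α j i * α j k - if i = k then α j i * α j k else 0) := by
      intro i k
      split_ifs <;> ring
    simp only [e3, ← Finset.mul_sum, Finset.sum_sub_distrib, hj.sum, Finset.sum_ite_eq,
      Finset.mem_univ, if_true, mul_zero]
    have e4 : ∑ i, α j i * α j i = 1 := by
      rw [← hj.sq]
      exact Finset.sum_congr rfl fun i _ => by ring
    rw [e4]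
    simp
  have e5 : -(1 / 2) * ∑ i, ∑ k, α j i * α j k * v i k j - 1 / Real.pi ^ 2 =
      -(1 / 2) * ∑ i, ∑ k, α j i * α j k * (v i k j - 2 / Real.pi ^ 2 * if i = k then (0 : ℝ) else 1) := by
    simp only [mul_sub, Finset.sum_sub_distrib]
    rw [e2]
    ring
  rw [e1, e5, Real.norm_eq_abs, abs_mul, abs_neg, abs_of_pos (by norm_num : (0 : ℝ) < 1 / 2)]
  refine mul_le_mul_of_nonneg_left ?_ (by norm_num)
  refine (Finset.abs_sum_le_sum_abs _ _).trans (Finset.sum_le_sum fun i _ => ?_)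
  refine (Finset.abs_sum_le_sum_abs _ _).trans (Finset.sum_le_sum fun k _ => ?_)
  rw [abs_mul, abs_mul]
  have b1 := hj.le1 i
  have b2 := hj.le1 k
  have b3 : |α j i| * |α j k| ≤ 1 * 1 := mul_le_mul b1 b2 (abs_nonneg _) zero_le_one
  calc _ ≤ 1 * |v i k j - 2 / Real.pi ^ 2 * if i = k then (0 : ℝ) else 1| := by
        apply mul_le_mul_of_nonneg_right _ (abs_nonneg _)
        linarith
    _ = _ := one_mul _

lemma GC_meas (z : ℕ → ℂ) (X : ℕ) : Continuous (GC z X) := by
  unfold GC
  refine continuous_finsetSum _ fun n hn => ?_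
  have hn0 : (n : ℂ) ≠ 0 := by
    exact_mod_cast (by have := (Finset.mem_Icc.1 (Finset.mem_filter.1 hn).1).1; omega : n ≠ 0)
  exact continuous_const.mul (Continuous.const_cpow (by fun_prop) (Or.inl hn0))

/-- **the limit law of linear forms** -/
theorem cfL (hTW : S_TW) (h : SD lam C a T) {κ : ℝ} (hκ : 0 < κ) (hκa : ∀ j, lam ≤ κ * a j) {D : ℕ}
    (x α : ℕ → Fin (D + 1) → ℝ) (hp : ∀ j, Pos κ (a j) (x j) (α j)) (s : ℝ) :
    Tendsto (fun j => ((1 / T j : ℝ) : ℂ) * ∫ t in (T j)..(2 * T j),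
      cexp (I * ((s * ZL (a j) (T j) (x j) (α j) t : ℝ) : ℂ))) atTop
      (𝓝 (cexp ((-(s ^ 2) / 2 : ℝ) : ℂ))) := by
  have hpi := Real.pi_pos
  have hT0 : ∀ j, 0 < T j := fun j => by linarith [h.T10 j]
  have ha0 : ∀ j, 0 < a j := fun j => by linarith [h.a16 j]
  have hm : (0 : ℝ) < 1 / Real.pi ^ 2 := by positivity
  set X : ℕ → ℕ := fun j => XK (kp (a j)) (T j) with hX
  set z : ℕ → ℕ → ℂ := fun j => zc (Real.log (T j) / lam) (fun i => hs (x j i) (T j)) (α j) with hz
  set N : ℕ → ℝ := fun j => Real.sqrt (1 / Real.pi ^ 2) * Real.sqrt (Real.log (a j)) with hN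
  have hsq : Real.sqrt (1 / Real.pi ^ 2) = 1 / Real.pi := by
    rw [Real.sqrt_div (by norm_num), Real.sqrt_sq hpi.le, Real.sqrt_one]
  have hA : ∀ j, T j ≤ T j + Real.log (T j) := fun j => by linarith [h.L0 j]
  have hAB : ∀ j, T j + Real.log (T j) ≤ 2 * T j - Real.log (T j) - 17 := fun j => by
    linarith [h.Tlog j, hT0 j]
  have hB : ∀ j, 2 * T j - Real.log (T j) - 17 ≤ 2 * T j := fun j => by linarith [h.L0 j]
  have hzbd : ∀ (j p : ℕ), ‖z j p‖ ^ 2 ≤ ((D + 1 : ℕ) : ℝ) ^ 2 := by
    intro j p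
    refine pow_le_pow_left₀ (norm_nonneg _) ?_ 2
    simp only [hz, zc]
    refine (norm_sum_le _ _).trans ?_
    calc _ ≤ ∑ i : Fin (D + 1), (1 : ℝ) := by
          refine Finset.sum_le_sum fun i _ => ?_
          rw [norm_mul]
          have h1 : ‖(p : ℂ) ^ (-((hs (x j i) (T j) / 2 : ℝ) : ℂ) * I)‖ ≤ 1 := by
            rcases Nat.eq_zero_or_pos p with hp0 | hp0
            · subst hp0
              rcases eq_or_ne (-((hs (x j i) (T j) / 2 : ℝ) : ℂ) * I) 0 with h2 | h2
              · rw [h2, Complex.cpow_zero, norm_one]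
              · rw [Nat.cast_zero, Complex.zero_cpow h2, norm_zero]
                exact zero_le_one
            · rw [cpow_exp (by omega), ← Complex.ofReal_neg, Complex.norm_exp_ofReal_mul_I]
          have h2 : ‖((α j i * rc (Real.log (T j) / lam) (hs (x j i) (T j)) p : ℝ) : ℂ)‖ ≤ 1 := by
            rw [Complex.norm_real, Real.norm_eq_abs, abs_mul]
            have h3 : |rc (Real.log (T j) / lam) (hs (x j i) (T j)) p| ≤ 1 := by
              rw [← sq_le_one_iff_abs_le_one]
              exact rc_bd (div_pos (h.L0 j) (by linarith [h.lam16])) _ p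
            have h4 := (hp j).le1 i
            calc _ ≤ 1 * (1 : ℝ) := mul_le_mul h4 h3 (abs_nonneg _) zero_le_one
              _ = 1 := one_mul _
          calc _ ≤ 1 * (1 : ℝ) := mul_le_mul h2 h1 (norm_nonneg _) zero_le_one
            _ = 1 := one_mul _
      _ = ((D + 1 : ℕ) : ℝ) := by simp
  have hV := vc_lim h hκ x α hp
  have hcf := hTW T (fun j => T j + Real.log (T j))
    (fun j => 2 * T j - Real.log (T j) - 17) X z N (((D + 1 : ℕ) : ℝ) ^ 2) hzbd h.Ttop hT0
    hAB h.len
    (fun j => by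
      simp only [hX]
      unfold XK
      apply Nat.le_floor
      push_cast
      exact Real.one_le_rpow (by linarith [h.T10 j]) (by have := h.la j; unfold kp; positivity))
    h.hX (div_atTop_of hm h hV) (sqrt_ratio hm hV h) (-s)
  rw [neg_sq] at hcf
  have hi : ∀ (j : ℕ) (i : Fin (D + 1)), IntervalIntegrable (fun t => er lam (kp (a j)) (T j) (x j i) t ^ 2)
      volume (T j + Real.log (T j)) (2 * T j - Real.log (T j) - 17) ∧
      ∫ t in (T j + Real.log (T j))..(2 * T j - Real.log (T j) - 17),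
        er lam (kp (a j)) (T j) (x j i) t ^ 2 ≤ C * qq (a j) * T j := by
    intro j i
    obtain ⟨i1, i2, -⟩ := h.cb j (x j i) ((hκa j).trans ((hp j).lo i)) (by
      have := (hp j).hi i
      have := ha0 j
      linarith)
    refine ⟨i1.mono_set ?_, le_trans ?_ i2⟩
    · rw [Set.uIcc_of_le (by linarith [hAB j]), Set.uIcc_of_le (by linarith [hAB j])]
      exact Set.Icc_subset_Icc le_rfl (by linarith)
    · exact intervalIntegral.integral_mono_interval le_rfl (by linarith [hAB j])
          (by linarith) (Eventually.of_forall fun t => sq_nonneg _) i1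
  refine trans_lim T (fun j => T j + Real.log (T j)) (fun j => 2 * T j - Real.log (T j) - 17)
    (fun j t => -(Real.sqrt 2 * (GC (z j) (X j) t / (N j : ℂ)).re))
    (fun j t => ZL (a j) (T j) (x j) (α j) t)
    (fun j t => 2 * Real.pi ^ 2 / Real.log (a j) * ∑ i : Fin (D + 1),
      er lam (kp (a j)) (T j) (x j i) t ^ 2) (cexp ((-(s ^ 2) / 2 : ℝ) : ℂ)) s hT0 hA hAB hB
    h.len (fun j => ?_) (fun j => ?_) (fun j => ?_) ?_ (fun j t ht => ?_) ?_
  · have hc1 : Continuous fun t : ℝ => -(Real.sqrt 2 * (GC (z j) (X j) t / (N j : ℂ)).re) :=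
      (continuous_const.mul (Complex.continuous_re.comp ((GC_meas _ _).div_const _))).neg
    exact hc1.measurable
  · exact ZL_meas _ _ _ _
  · refine IntervalIntegrable.const_mul ?_ _
    have := IntervalIntegrable.sum Finset.univ (f := fun (i : Fin (D + 1)) t =>
      er lam (kp (a j)) (T j) (x j i) t ^ 2) (μ := volume)
      (a := T j + Real.log (T j)) (b := 2 * T j - Real.log (T j) - 17) (fun i _ => (hi j i).1)
    refine this.congr (fun t _ => ?_)
    simp [Finset.sum_apply]
  · refine squeeze_zero (fun j => ?_) (fun j => ?_) (h.ee (2 * Real.pi ^ 2 * (D + 1)) (by positivity))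
    · refine mul_nonneg (by have := hT0 j; positivity) ?_
      refine intervalIntegral.integral_nonneg (hAB j) fun t _ => ?_
      have := h.la j
      have h3 : 0 ≤ ∑ i : Fin (D + 1), er lam (kp (a j)) (T j) (x j i) t ^ 2 :=
        Finset.sum_nonneg fun k _ => sq_nonneg _
      positivity
    · have hTj := hT0 j
      have hla := h.la j
      refine mul_le_mul_of_nonneg_left ?_ (by positivity)
      rw [intervalIntegral.integral_const_mul,
        intervalIntegral.integral_finsetSum (fun i _ => (hi j i).1)]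
      have h3 : ∑ i : Fin (D + 1), ∫ t in (T j + Real.log (T j))..(2 * T j - Real.log (T j) - 17),
          er lam (kp (a j)) (T j) (x j i) t ^ 2 ≤ (D + 1) * (C * qq (a j) * T j) := by
        calc _ ≤ ∑ i : Fin (D + 1), C * qq (a j) * T j := Finset.sum_le_sum fun i _ => (hi j i).2
          _ = _ := by
            rw [Finset.sum_const, Finset.card_univ, Fintype.card_fin, nsmul_eq_mul]
            push_cast
            ring
      calc _ ≤ 2 * Real.pi ^ 2 / Real.log (a j) * ((D + 1) * (C * qq (a j) * T j)) :=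
            mul_le_mul_of_nonneg_left h3 (by positivity)
        _ = _ := by ring
  · have hla := h.la j
    have hsl : 0 < Real.sqrt (Real.log (a j)) := Real.sqrt_pos.2 (by linarith)
    have hs2 : Real.sqrt 2 ^ 2 = 2 := Real.sq_sqrt (by norm_num)
    have e2 : GC (z j) (X j) t = ∑ i, (α j i : ℂ) * G (rc (Real.log (T j) / lam) (hs (x j i) (T j))) (X j)
        (t + hs (x j i) (T j) / 2) :=
      GC_comb (Real.log (T j) / lam) (fun i => hs (x j i) (T j)) (α j) (X j) t
    have e1 : ZL (a j) (T j) (x j) (α j) t - -(Real.sqrt 2 * (GC (z j) (X j) t / (N j : ℂ)).re) =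
        Real.sqrt 2 * (Real.pi / Real.sqrt (Real.log (a j)) * ∑ i : Fin (D + 1), α j i *
          er lam (kp (a j)) (T j) (x j i) t) := by
      rw [Complex.div_ofReal_re, e2, Complex.re_sum]
      simp only [Complex.re_ofReal_mul]
      unfold ZL
      have e3 : ∑ i, α j i * Dd (T j) t (x j i) = ∑ i, α j i * er lam (kp (a j)) (T j) (x j i) t -
          ∑ i, α j i * (G (rc (Real.log (T j) / lam) (hs (x j i) (T j))) (X j)
            (t + hs (x j i) (T j) / 2)).re := by
        rw [← Finset.sum_sub_distrib]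
        refine Finset.sum_congr rfl fun i _ => ?_
        rw [Dd_er lam (kp (a j))]
        simp only [hX]
        ring
      rw [e3]
      simp only [hN, hsq]
      field_simp
      ring
    rw [e1, mul_pow, mul_pow, div_pow, hs2, Real.sq_sqrt (by linarith : (0 : ℝ) ≤ Real.log (a j))]
    have h4 := Finset.sum_mul_sq_le_sq_mul_sq Finset.univ (α j) (fun i : Fin (D + 1) =>
      er lam (kp (a j)) (T j) (x j i) t)
    rw [(hp j).sq, one_mul] at h4
    calc _ ≤ 2 * (Real.pi ^ 2 / Real.log (a j) * ∑ i : Fin (D + 1),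
          er lam (kp (a j)) (T j) (x j i) t ^ 2) :=
          mul_le_mul_of_nonneg_left (mul_le_mul_of_nonneg_left h4 (by positivity)) (by norm_num)
      _ = _ := by ring
  · refine hcf.congr fun j => ?_
    congr 1
    refine intervalIntegral.integral_congr fun t _ => ?_
    congr 3
    ring

/-- **concentration of linear forms, uniform version** -/
theorem conc (hTW : S_TW) (hCO : S_CO) (B : ℝ) (hB : 1 ≤ B) (D : ℕ) {κ ε : ℝ} (hκ : 0 < κ) (hε : 0 < ε) :
    ∃ R : ℝ, 3 ≤ R ∧ ∀ a T : ℝ, R ≤ a → 1 ≤ T → a * Real.log a ≤ B * Real.log T →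
    ∀ x α : Fin (D + 1) → ℝ, Pos κ a x α → ∀ b : ℝ,
    volume {t ∈ Set.Icc T (2 * T) | |ZL a T x α t - b| ≤ ε} ≤ ENNReal.ofReal (8 * ε * T) := by
  obtain ⟨A0, lam, C, hA0, hseq⟩ := sd_mk B hB
  by_contra hcon
  push Not at hcon
  have hch : ∀ j : ℕ, ∃ y : (ℝ × ℝ) × ((Fin (D + 1) → ℝ) × (Fin (D + 1) → ℝ)),
      max A0 (lam / κ) + j ≤ y.1.1 ∧ 1 ≤ y.1.2 ∧
      y.1.1 * Real.log y.1.1 ≤ B * Real.log y.1.2 ∧ Pos κ y.1.1 y.2.1 y.2.2 ∧ ∃ b : ℝ,
      ENNReal.ofReal (8 * ε * y.1.2) < volume {t ∈ Set.Icc y.1.2 (2 * y.1.2) |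
        |ZL y.1.1 y.1.2 y.2.1 y.2.2 t - b| ≤ ε} := by
    intro j
    obtain ⟨a, T, h1, h2, h3, x, α, h4, b, h5⟩ := hcon (max A0 (lam / κ) + j)
      (by
        have : (0 : ℝ) ≤ j := Nat.cast_nonneg j
        have := le_max_left A0 (lam / κ)
        linarith)
    exact ⟨((a, T), (x, α)), h1, h2, h3, h4, b, h5⟩
  choose y hy using hch
  have hj0 : ∀ j : ℕ, (0 : ℝ) ≤ j := fun j => Nat.cast_nonneg j
  have hsd := hseq (fun j => (y j).1.1) (fun j => (y j).1.2)
    (fun j => by
      have h1 := (hy j).1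
      have h2 := le_max_left A0 (lam / κ)
      have h3 := hj0 j
      linarith) (fun j => (hy j).2.1)
    (tendsto_atTop_mono (fun j => by
      have h1 := (hy j).1
      have h2 := le_max_left A0 (lam / κ)
      linarith) tendsto_natCast_atTop_atTop)
    (fun j => (hy j).2.2.1)
  have h := hCO (fun j => (y j).1.2) (fun j t => ZL (y j).1.1 (y j).1.2 (y j).2.1 (y j).2.2 t)
    (fun j => by have := (hy j).2.1; linarith) (fun j => ZL_meas _ _ _ _)
    (fun s => cfL hTW hsd hκ (fun j => by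
      have h1 := (hy j).1
      have h2 := le_max_right A0 (lam / κ)
      have h3 := hj0 j
      have h4 : lam / κ ≤ (y j).1.1 := by linarith
      rw [div_le_iff₀ hκ] at h4
      linarith) (fun j => (y j).2.1) (fun j => (y j).2.2) (fun j => (hy j).2.2.2.1) s) ε hε
  obtain ⟨j, hj⟩ := h.exists
  obtain ⟨b, hb⟩ := (hy j).2.2.2.2
  exact absurd hb (not_lt.2 (hj b))

end Pool.Agent.P8H60.LM
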